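import Pool.Agent.H88.B2.Targets

/-!
# Row L2D of the board bpd_modules: the multiplicity near the points
-/

set_option autoImplicit false

namespace Pool.Agent.H4.B2.L2D

open MeasureTheory Set
open Pool.Agent.H83.G Pool.Agent.H88.B2
open scoped ENNReal NNReal RealInnerProductSpace

lemma lo_cont {m : ℕ} (η : E m) (s : ℝ) : Continuous (Lo η s) := by
  unfold Lo
  fun_prop

lemma fc_cont {m : ℕ} (R δ : ℝ) (k : Fin m → ℤ) : Continuous (fc R δ k) := by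
  unfold fc
  exact Continuous.const_smul (lo_cont (ctr (sR R) k) (sR R)) (R ^ (-δ))

lemma wt_cont {m : ℕ} (N : ℕ) : Continuous (wt N : Z m → ℝ) := by
  unfold wt
  refine Continuous.inv₀ (by fun_prop) ?_
  intro z
  have := norm_nonneg z
  positivity

lemma wt_nn {m : ℕ} (N : ℕ) (z : Z m) : 0 ≤ wt N z := by
  unfold wt
  have := norm_nonneg z
  positivity

/-- scaling of the Lebesgue integral -/
lemma lint_scale {V : Type} [NormedAddCommGroup V] [NormedSpace ℝ V] [MeasurableSpace V]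
    [BorelSpace V] [FiniteDimensional ℝ V] (μ : Measure V) [μ.IsAddHaarMeasure]
    (f : V → ℝ≥0∞) (hf : Measurable f) (c : ℝ) (hc : 0 < c) (v : V) :
    ∫⁻ x, f (c • x - v) ∂μ = ENNReal.ofReal ((c⁻¹) ^ Module.finrank ℝ V) * ∫⁻ x, f x ∂μ := by
  have h1 : ∫⁻ x, f (c • x - v) ∂μ = ∫⁻ y, f (y - v) ∂(Measure.map (fun x : V => c • x) μ) := by
    rw [lintegral_map (by fun_prop) (by fun_prop)]
  rw [h1, Measure.map_addHaar_smul μ hc.ne', lintegral_smul_measure, lintegral_sub_right_eq_self]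
  rw [smul_eq_mul]
  congr 2
  rw [abs_of_pos (by positivity), inv_pow]

lemma int_main (m : ℕ) : ∃ C : ℝ, 0 ≤ C ∧ ∀ (η : E m) (k w t : ℝ) (x : Z m), 0 < k → 0 < w →
    ∫⁻ y : Z m, ENNReal.ofReal (((1 + |k * (y.1 + ⟪y.2.1, η⟫ + y.2.2 * ‖η‖ ^ 2) - t|) ^ 2)⁻¹ *
      ((1 + ‖w⁻¹ • (y.2 - x.2)‖) ^ (m + 3))⁻¹) ≤ ENNReal.ofReal (C * k⁻¹ * w ^ (m + 1)) := by
  haveI hH : (volume : Measure (E m × ℝ)).IsAddHaarMeasure := by
    rw [Measure.volume_eq_prod]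
    infer_instance
  have h1 : ∫⁻ t : ℝ, ENNReal.ofReal (((1 + |t|) ^ 2)⁻¹) < ∞ := by
    have := finite_integral_one_add_norm (E := ℝ) (μ := (volume : Measure ℝ)) (r := 2)
      (by rw [Module.finrank_self]; norm_num)
    refine lt_of_eq_of_lt ?_ this
    refine lintegral_congr fun t => ?_
    congr 1
    rw [Real.rpow_neg (by positivity), Real.norm_eq_abs]
    norm_num
  have h2 : ∫⁻ u : E m × ℝ, ENNReal.ofReal (((1 + ‖u‖) ^ (m + 3))⁻¹) < ∞ := by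
    have := finite_integral_one_add_norm (E := E m × ℝ) (μ := (volume : Measure (E m × ℝ)))
      (r := (m : ℝ) + 3)
      (by
        rw [Module.finrank_prod, Module.finrank_self, finrank_euclideanSpace_fin]
        push_cast
        linarith)
    refine lt_of_eq_of_lt ?_ this
    refine lintegral_congr fun t => ?_
    congr 1
    rw [Real.rpow_neg (by positivity)]
    congr 1
    rw [← Real.rpow_natCast]
    push_cast
    rfl
  refine ⟨(∫⁻ t : ℝ, ENNReal.ofReal (((1 + |t|) ^ 2)⁻¹)).toReal *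
    (∫⁻ u : E m × ℝ, ENNReal.ofReal (((1 + ‖u‖) ^ (m + 3))⁻¹)).toReal, by positivity, ?_⟩
  intro η k w t x hk hw
  set I1 := ∫⁻ t : ℝ, ENNReal.ofReal (((1 + |t|) ^ 2)⁻¹) with hI1
  set I2 := ∫⁻ u : E m × ℝ, ENNReal.ofReal (((1 + ‖u‖) ^ (m + 3))⁻¹) with hI2
  have hm1 : Measurable (fun t : ℝ => ENNReal.ofReal (((1 + |t|) ^ 2)⁻¹)) := by fun_prop
  have hm2 : Measurable (fun u : E m × ℝ => ENNReal.ofReal (((1 + ‖u‖) ^ (m + 3))⁻¹)) := by
    fun_prop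
  have e1 : ∀ u : E m × ℝ, ∫⁻ v : ℝ, ENNReal.ofReal
      (((1 + |k * (v + ⟪u.1, η⟫ + u.2 * ‖η‖ ^ 2) - t|) ^ 2)⁻¹) =
      ENNReal.ofReal (k⁻¹) * I1 := by
    intro u
    have h := lint_scale (volume : Measure ℝ) (fun t : ℝ => ENNReal.ofReal (((1 + |t|) ^ 2)⁻¹))
      hm1 k hk (t - k * (⟪u.1, η⟫ + u.2 * ‖η‖ ^ 2))
    rw [Module.finrank_self, pow_one] at h
    rw [← h]
    refine lintegral_congr fun v => ?_
    congr 5
    rw [smul_eq_mul]
    ring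
  have e2 : ∫⁻ u : E m × ℝ, ENNReal.ofReal (((1 + ‖w⁻¹ • (u - x.2)‖) ^ (m + 3))⁻¹) =
      ENNReal.ofReal (w ^ (m + 1)) * I2 := by
    have h := lint_scale (volume : Measure (E m × ℝ))
      (fun u : E m × ℝ => ENNReal.ofReal (((1 + ‖u‖) ^ (m + 3))⁻¹)) hm2 w⁻¹ (inv_pos.2 hw)
      (w⁻¹ • x.2)
    rw [Module.finrank_prod, Module.finrank_self, finrank_euclideanSpace_fin, inv_inv] at h
    rw [← h]
    refine lintegral_congr fun v => ?_
    rw [smul_sub]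
  have hme : Measurable (fun y : Z m => ENNReal.ofReal
      (((1 + |k * (y.1 + ⟪y.2.1, η⟫ + y.2.2 * ‖η‖ ^ 2) - t|) ^ 2)⁻¹ *
      ((1 + ‖w⁻¹ • (y.2 - x.2)‖) ^ (m + 3))⁻¹)) := by
    refine ENNReal.measurable_ofReal.comp ?_
    refine Measurable.mul ?_ ?_
    · refine Measurable.inv ?_
      refine Continuous.measurable ?_
      fun_prop
    · refine Measurable.inv ?_
      refine Continuous.measurable ?_
      fun_prop
  rw [Measure.volume_eq_prod, lintegral_prod_symm' _ hme]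
  have e3 : ∀ u : E m × ℝ, ∫⁻ v : ℝ, ENNReal.ofReal
      (((1 + |k * ((v, u).1 + ⟪(v, u).2.1, η⟫ + (v, u).2.2 * ‖η‖ ^ 2) - t|) ^ 2)⁻¹ *
      ((1 + ‖w⁻¹ • ((v, u).2 - x.2)‖) ^ (m + 3))⁻¹) =
      (ENNReal.ofReal (k⁻¹) * I1) *
        ENNReal.ofReal (((1 + ‖w⁻¹ • (u - x.2)‖) ^ (m + 3))⁻¹) := by
    intro u
    rw [← e1 u, ← lintegral_mul_const' _ _ ENNReal.ofReal_ne_top]
    refine lintegral_congr fun v => ?_
    rw [← ENNReal.ofReal_mul (by positivity)]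
  have e4 : ∫⁻ u : E m × ℝ, ∫⁻ v : ℝ, ENNReal.ofReal
      (((1 + |k * ((v, u).1 + ⟪(v, u).2.1, η⟫ + (v, u).2.2 * ‖η‖ ^ 2) - t|) ^ 2)⁻¹ *
      ((1 + ‖w⁻¹ • ((v, u).2 - x.2)‖) ^ (m + 3))⁻¹) =
      (ENNReal.ofReal (k⁻¹) * I1) * (ENNReal.ofReal (w ^ (m + 1)) * I2) := by
    rw [lintegral_congr e3, lintegral_const_mul' _ _
      (ENNReal.mul_ne_top ENNReal.ofReal_ne_top h1.ne), e2]
  rw [e4]
  refine le_of_eq ?_
  have f1 : I1 = ENNReal.ofReal I1.toReal := (ENNReal.ofReal_toReal h1.ne).symm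
  have f2 : I2 = ENNReal.ofReal I2.toReal := (ENNReal.ofReal_toReal h2.ne).symm
  have g1 : 0 ≤ I1.toReal := ENNReal.toReal_nonneg
  have g2 : 0 ≤ I2.toReal := ENNReal.toReal_nonneg
  conv_lhs => rw [f1, f2]
  rw [← ENNReal.ofReal_mul (by positivity), ← ENNReal.ofReal_mul (by positivity),
    ← ENNReal.ofReal_mul (by positivity)]
  congr 1
  ring

lemma pt {m : ℕ} (N NM N₁ : ℕ) (hNM : 2 * N + 2 ≤ NM) (hN₁ : 2 * N + m + 3 ≤ N₁)
    (R δ w C : ℝ) (hR : 1 ≤ R) (hw : R ^ δ ≤ w) (W : Pk m) (x y : Z m)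
    (hWW : ww N R δ w W y ≤ C * (1 + ‖w⁻¹ • (y - x)‖) ^ (2 * N) * ww N R δ w W x) :
    wt NM (fc R δ W.1 y - zc W.2) * wt N₁ (w⁻¹ • (y - x)) ≤
      C * ww N R δ w W x * (((1 + |(fc R δ W.1 y - zc W.2).1|) ^ 2)⁻¹ *
        ((1 + ‖w⁻¹ • (y.2 - x.2)‖) ^ (m + 3))⁻¹) := by
  have hRd : 0 < R ^ δ := Real.rpow_pos_of_pos (by linarith) δ
  have hw0 : 0 < w := lt_of_lt_of_le hRd hw
  set v : Z m := fc R δ W.1 y - zc W.2 with hv
  set ρ : ℝ := ‖w⁻¹ • (y - x)‖ with hρ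
  set ρ' : ℝ := ‖w⁻¹ • (y.2 - x.2)‖ with hρ'
  have hρ0 : 0 ≤ ρ := norm_nonneg _
  have hρ'0 : 0 ≤ ρ' := norm_nonneg _
  have hρρ : ρ' ≤ ρ := by
    have : ‖(w⁻¹ • (y - x)).2‖ ≤ ‖w⁻¹ • (y - x)‖ := norm_snd_le _
    simpa using this
  have ha : |v.1| ≤ ‖v‖ := norm_fst_le v
  have hb : ‖v.2‖ ≤ ‖v‖ := norm_snd_le v
  have ha0 : 0 ≤ |v.1| := abs_nonneg _
  have hb0 : 0 ≤ ‖v.2‖ := norm_nonneg _
  have hv0 : 0 ≤ ‖v‖ := norm_nonneg _
  have ha' : |R ^ δ / w * v.1| ≤ |v.1| := by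
    rw [abs_mul, abs_of_pos (div_pos hRd hw0)]
    have : R ^ δ / w ≤ 1 := (div_le_one hw0).2 hw
    nlinarith
  have ha'0 : 0 ≤ |R ^ δ / w * v.1| := abs_nonneg _
  -- first factor
  have k1 : wt NM v ≤ ((1 + |v.1|) ^ 2)⁻¹ * ww N R δ w W y := by
    unfold wt ww
    rw [← hv, ← mul_inv, ← mul_inv]
    refine inv_anti₀ (by positivity) ?_
    calc (1 + |v.1|) ^ 2 * ((1 + |R ^ δ / w * v.1|) ^ N * (1 + ‖v.2‖) ^ N)
        ≤ (1 + ‖v‖) ^ 2 * ((1 + ‖v‖) ^ N * (1 + ‖v‖) ^ N) := by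
          have q1 : (1 + |v.1|) ^ 2 ≤ (1 + ‖v‖) ^ 2 :=
            pow_le_pow_left₀ (by positivity) (by linarith) 2
          have q2 : (1 + |R ^ δ / w * v.1|) ^ N ≤ (1 + ‖v‖) ^ N :=
            pow_le_pow_left₀ (by positivity) (by linarith) N
          have q3 : (1 + ‖v.2‖) ^ N ≤ (1 + ‖v‖) ^ N :=
            pow_le_pow_left₀ (by positivity) (by linarith) N
          exact mul_le_mul q1 (mul_le_mul q2 q3 (by positivity) (by positivity))
            (by positivity) (by positivity)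
      _ = (1 + ‖v‖) ^ (2 * N + 2) := by ring
      _ ≤ (1 + ‖v‖) ^ NM := pow_le_pow_right₀ (by linarith) hNM
  have k2 : (1 + ρ) ^ (2 * N) * wt N₁ (w⁻¹ • (y - x)) ≤ ((1 + ρ') ^ (m + 3))⁻¹ := by
    unfold wt
    rw [← hρ]
    rw [← div_eq_mul_inv, div_le_iff₀ (by positivity)]
    rw [inv_mul_eq_div, le_div_iff₀ (by positivity)]
    calc (1 + ρ) ^ (2 * N) * (1 + ρ') ^ (m + 3) ≤ (1 + ρ) ^ (2 * N) * (1 + ρ) ^ (m + 3) := by
          have q1 : (1 + ρ') ^ (m + 3) ≤ (1 + ρ) ^ (m + 3) :=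
            pow_le_pow_left₀ (by positivity) (by linarith) _
          exact mul_le_mul_of_nonneg_left q1 (by positivity)
      _ = (1 + ρ) ^ (2 * N + m + 3) := by ring
      _ ≤ (1 + ρ) ^ N₁ := pow_le_pow_right₀ (by linarith) hN₁
  have hwx : 0 ≤ ww N R δ w W x := by
    unfold ww
    positivity
  have hwy : 0 ≤ ww N R δ w W y := by
    unfold ww
    positivity
  have hwt : 0 ≤ wt N₁ (w⁻¹ • (y - x)) := wt_nn _ _
  have hCx : 0 ≤ C * ww N R δ w W x := by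
    have h1 : 0 ≤ C * (1 + ρ) ^ (2 * N) * ww N R δ w W x := hwy.trans hWW
    have h2 : C * (1 + ρ) ^ (2 * N) * ww N R δ w W x =
      (1 + ρ) ^ (2 * N) * (C * ww N R δ w W x) := by ring
    rw [h2] at h1
    exact nonneg_of_mul_nonneg_right h1 (by positivity)
  calc wt NM v * wt N₁ (w⁻¹ • (y - x))
      ≤ (((1 + |v.1|) ^ 2)⁻¹ * ww N R δ w W y) * wt N₁ (w⁻¹ • (y - x)) :=
        mul_le_mul_of_nonneg_right k1 hwt
    _ ≤ (((1 + |v.1|) ^ 2)⁻¹ * (C * (1 + ρ) ^ (2 * N) * ww N R δ w W x)) *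
          wt N₁ (w⁻¹ • (y - x)) := by
        refine mul_le_mul_of_nonneg_right ?_ hwt
        exact mul_le_mul_of_nonneg_left hWW (by positivity)
    _ = (((1 + |v.1|) ^ 2)⁻¹ * (C * ww N R δ w W x)) *
          ((1 + ρ) ^ (2 * N) * wt N₁ (w⁻¹ • (y - x))) := by ring
    _ ≤ (((1 + |v.1|) ^ 2)⁻¹ * (C * ww N R δ w W x)) * ((1 + ρ') ^ (m + 3))⁻¹ :=
        mul_le_mul_of_nonneg_left k2 (by positivity)
    _ = _ := by ring

theorem pf_L2D (hWWS : T_WWS) (_hLOA : T_LOA) : T_L2D := by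
  intro m N NM N₁ hm hNM hN₁
  obtain ⟨C1, hC1, hW1, -⟩ := hWWS m N
  obtain ⟨C2, hC2, hI⟩ := int_main m
  refine ⟨1 + C1 * C2, by nlinarith, ?_⟩
  intro R δ w P Q hR hδ hw hwR hP
  have hRd : 0 < R ^ δ := Real.rpow_pos_of_pos (by linarith) δ
  have hw0 : 0 < w := lt_of_lt_of_le hRd hw
  have hone : ∀ W ∈ P, ∀ x ∈ Q,
      ∫⁻ z, ENNReal.ofReal (wt NM (fc R δ W.1 z - zc W.2) * wt N₁ (w⁻¹ • (z - x))) ≤
      ENNReal.ofReal (C1 * C2 * R ^ δ * w ^ (m + 1) * ww N R δ w W x) := by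
    intro W hW x _
    have hwx : 0 ≤ ww N R δ w W x := by
      unfold ww
      positivity
    have h1 : ∀ z : Z m, ENNReal.ofReal (wt NM (fc R δ W.1 z - zc W.2) *
        wt N₁ (w⁻¹ • (z - x))) ≤ ENNReal.ofReal (C1 * ww N R δ w W x) *
        ENNReal.ofReal (((1 + |R ^ (-δ) * (z.1 + ⟪z.2.1, ctr (sR R) W.1⟫ +
          z.2.2 * ‖ctr (sR R) W.1‖ ^ 2) - (zc W.2).1|) ^ 2)⁻¹ *
        ((1 + ‖w⁻¹ • (z.2 - x.2)‖) ^ (m + 3))⁻¹) := by
      intro z
      rw [← ENNReal.ofReal_mul (by positivity)]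
      refine ENNReal.ofReal_le_ofReal ?_
      exact pt N NM N₁ hNM hN₁ R δ w C1 hR hw W x z (hW1 R δ w W z x hR hδ hw0 hwR (hP W hW))
    refine (lintegral_mono h1).trans ?_
    rw [lintegral_const_mul' _ _ ENNReal.ofReal_ne_top]
    refine (mul_le_mul_right (hI (ctr (sR R) W.1) (R ^ (-δ)) w (zc W.2).1 x
      (Real.rpow_pos_of_pos (by linarith) _) hw0) _).trans ?_
    rw [← ENNReal.ofReal_mul (by positivity)]
    refine ENNReal.ofReal_le_ofReal (le_of_eq ?_)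
    rw [Real.rpow_neg (by linarith), inv_inv]
    ring
  have hmeas : ∀ (W : Pk m) (x : Z m), Measurable (fun z : Z m =>
      ENNReal.ofReal (wt NM (fc R δ W.1 z - zc W.2) * wt N₁ (w⁻¹ • (z - x)))) := by
    intro W x
    refine ENNReal.measurable_ofReal.comp (Continuous.measurable ?_)
    refine Continuous.mul ?_ ?_
    · exact (wt_cont NM).comp ((fc_cont R δ W.1).sub continuous_const)
    · exact (wt_cont N₁).comp (by fun_prop)
  have hsum : ∀ z : Z m, ENNReal.ofReal (MS NM R δ P z * Om N₁ w Q z) =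
      ∑ W ∈ P, ∑ x ∈ Q,
        ENNReal.ofReal (wt NM (fc R δ W.1 z - zc W.2) * wt N₁ (w⁻¹ • (z - x))) := by
    intro z
    unfold MS Om
    rw [Finset.sum_mul_sum, ENNReal.ofReal_sum_of_nonneg]
    · refine Finset.sum_congr rfl fun W _ => ?_
      rw [ENNReal.ofReal_sum_of_nonneg]
      intro x _
      exact mul_nonneg (wt_nn _ _) (wt_nn _ _)
    · intro W _
      exact Finset.sum_nonneg fun x _ => mul_nonneg (wt_nn _ _) (wt_nn _ _)
  rw [lintegral_congr hsum, lintegral_finsetSum P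
    (fun W _ => Finset.measurable_sum Q fun x _ => hmeas W x)]
  have h3 : ∀ W ∈ P, ∫⁻ z, ∑ x ∈ Q,
      ENNReal.ofReal (wt NM (fc R δ W.1 z - zc W.2) * wt N₁ (w⁻¹ • (z - x))) ≤
      ENNReal.ofReal (∑ x ∈ Q, C1 * C2 * R ^ δ * w ^ (m + 1) * ww N R δ w W x) := by
    intro W hW
    rw [lintegral_finsetSum Q (fun x _ => hmeas W x), ENNReal.ofReal_sum_of_nonneg]
    · exact Finset.sum_le_sum fun x hx => hone W hW x hx
    · intro x _
      have hwx : 0 ≤ ww N R δ w W x := by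
        unfold ww
        positivity
      positivity
  refine (Finset.sum_le_sum h3).trans ?_
  rw [← ENNReal.ofReal_sum_of_nonneg]
  · refine ENNReal.ofReal_le_ofReal ?_
    rw [Finset.sum_comm]
    have h4 : ∑ x ∈ Q, ∑ W ∈ P, C1 * C2 * R ^ δ * w ^ (m + 1) * ww N R δ w W x =
        C1 * C2 * R ^ δ * w ^ (m + 1) * ∑ x ∈ Q, Nd N R δ w P x := by
      rw [Finset.mul_sum]
      refine Finset.sum_congr rfl fun x _ => ?_
      unfold Nd
      rw [Finset.mul_sum]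
    rw [h4]
    have h5 : 0 ≤ ∑ x ∈ Q, Nd N R δ w P x := by
      refine Finset.sum_nonneg fun x _ => Finset.sum_nonneg fun W _ => ?_
      unfold ww
      positivity
    refine mul_le_mul_of_nonneg_right ?_ h5
    refine mul_le_mul_of_nonneg_right ?_ (by positivity)
    refine mul_le_mul_of_nonneg_right ?_ hRd.le
    linarith
  · intro W _
    refine Finset.sum_nonneg fun x _ => ?_
    have hwx : 0 ≤ ww N R δ w W x := by
      unfold ww
      positivity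
    positivity

end Pool.Agent.H4.B2.L2D
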